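import Pool.Agent.Helper71.IT.RecS

/-!
# Project IT (MP_a499ba_nt), block H: the half plane form of `conv_sys71`
-/

set_option autoImplicit false

open Complex Filter Topology MeasureTheory Set
open Pool.Agent.Helper57.Zeta
open Pool.Agent.Helper18.ES (S mu)
open Pool.Agent.Helper71.MR
open Pool.Agent.Helper71.MA (Sys sm Fail)

namespace Pool.Agent.IT

variable {F : ℝ → ℝ} {A : ℝ} {c : ℂ → ℂ}

/-- the bound for a real linear form of the convolution near infinity bounds it everywhere -/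
theorem conv_half71 (hS : Sys F A c) (hne : Pool.Agent.Helper71.MA.Ne c 1) {K T0 : ℝ}
    (hK : ∀ t, T0 ≤ t → |F t| ≤ K) {θ B : ℝ} {ω : ℂ}
    (hB : ∀ ε : ℝ, 0 < ε → ∃ U : ℝ, ∀ u, U ≤ u → (ω * Fc θ F u).re ≤ B + ε) (u₀ : ℝ) :
    (ω * Fc θ F u₀).re ≤ B := by
  obtain ⟨hms, hre, hsimple⟩ := sys_bdd71 hS hne hK
  have hK0 : 0 ≤ K := (abs_nonneg _).trans (hms 0)
  by_contra hcon
  push Not at hcon
  obtain ⟨ε, hεdef⟩ : ∃ ε : ℝ, ε = ((ω * Fc θ F u₀).re - B) / 3 := ⟨_, rfl⟩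
  have hε : 0 < ε := by rw [hεdef]; linarith
  obtain ⟨U, hU⟩ := hB ε hε
  have h0 : Tendsto (fun u => (ω * Fc θ F u).re) (𝓝[≥] u₀) (𝓝 (ω * Fc θ F u₀).re) :=
    (Complex.continuous_re.tendsto _).comp ((Fc_rightS71 hS hms θ u₀).const_mul ω)
  have h1 := h0
  rw [Metric.tendsto_nhdsWithin_nhds] at h1
  obtain ⟨η, hη, h2⟩ := h1 ε hε
  set δ : ℝ := min 1 (η / 2) with hδ
  have hδ0 : 0 < δ := by positivity
  have hδ1 : δ ≤ 1 := min_le_left _ _
  have hδη : δ < η := by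
    have := min_le_right 1 (η / 2)
    rw [hδ]; linarith
  have hI := gt_int_pos hδ0
  obtain ⟨τ, hτ, hτt⟩ := rec_seqS71 hS hK0 hms hre hsimple hδ1
  -- the smoothed linear form
  have hsm : ∀ y : ℝ, Integrable (fun u : ℝ => (ω * Fc θ F (y + u)).re * gt δ u) ∧
      ∫ u : ℝ, (ω * Fc θ F (y + u)).re * gt δ u = (ω * Fc θ (sm F δ) y).re := by
    intro y
    obtain ⟨i1, e1⟩ := Fc_smoothS71 hS.meas hms θ δ y
    have i2 : Integrable (fun u : ℝ => ω * (Fc θ F (y + u) * (gt δ u : ℂ))) := i1.const_mul ω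
    have e2 : (fun u : ℝ => (ω * Fc θ F (y + u)).re * gt δ u) =
        fun u : ℝ => (ω * (Fc θ F (y + u) * (gt δ u : ℂ))).re := by
      ext u
      rw [← mul_assoc, Complex.re_mul_ofReal]
    rw [e2]
    refine ⟨i2.re, ?_⟩
    have h3 := integral_re i2
    have h4 : ∫ u : ℝ, (ω * (Fc θ F (y + u) * (gt δ u : ℂ))).re =
        (∫ u : ℝ, ω * (Fc θ F (y + u) * (gt δ u : ℂ))).re := h3
    rw [h4, integral_const_mul, e1]
  -- the bound for the smoothed function
  have h3 : (ω * Fc θ (sm F δ) u₀).re ≤ (B + ε) * ∫ u : ℝ, gt δ u := by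
    have h4 : Tendsto (fun n => Fc θ (sm F δ) (τ n + u₀)) atTop (𝓝 (Fc θ (sm F δ) u₀)) := by
      have h5 : Tendsto (fun n => Jc θ (sm F δ) (τ n + u₀)) atTop (𝓝 (Jc θ (sm F δ) u₀)) := by
        apply Jc_tendsto71 (f := fun _ : ℕ => sm F δ) (u := fun n => τ n + u₀)
          (fun _ => (Pool.Agent.Helper71.MA.sm_cont hS hδ1).measurable) (fun _ => sm_bddS71 hms δ)
        intro v _
        refine (hτt (u₀ - v)).congr fun n => ?_
        rw [show τ n + (u₀ - v) = τ n + u₀ - v by ring]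
      have h6 : Tendsto (fun n => (sm F δ (τ n + u₀) : ℂ)) atTop (𝓝 (sm F δ u₀ : ℂ)) :=
        (Complex.continuous_ofReal.tendsto _).comp (hτt u₀)
      exact h6.add (h5.const_mul (I * θ))
    have h4' : Tendsto (fun n => (ω * Fc θ (sm F δ) (τ n + u₀)).re) atTop (𝓝 (ω * Fc θ (sm F δ) u₀).re) :=
      (Complex.continuous_re.tendsto _).comp (h4.const_mul ω)
    apply le_of_tendsto h4'
    filter_upwards [hτ.eventually (eventually_ge_atTop (U - u₀))] with n hn
    obtain ⟨i1, e1⟩ := hsm (τ n + u₀)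
    rw [← e1, ← integral_const_mul]
    apply integral_mono i1 ((gt_integrable δ).const_mul _)
    intro u
    show (ω * Fc θ F (τ n + u₀ + u)).re * gt δ u ≤ (B + ε) * gt δ u
    rcases le_or_gt u 0 with h | h
    · rw [gt_zero (Or.inl h)]; simp
    · exact mul_le_mul_of_nonneg_right (hU _ (by linarith)) (gt_nonneg _ _)
  -- the smoothed function is close to the value
  have h4 : ((ω * Fc θ F u₀).re - ε) * (∫ u : ℝ, gt δ u) ≤ (ω * Fc θ (sm F δ) u₀).re := by
    obtain ⟨i1, e1⟩ := hsm u₀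
    rw [← e1, ← integral_const_mul]
    apply integral_mono ((gt_integrable δ).const_mul _) i1
    intro u
    show ((ω * Fc θ F u₀).re - ε) * gt δ u ≤ (ω * Fc θ F (u₀ + u)).re * gt δ u
    rcases le_or_gt u 0 with h | h
    · rw [gt_zero (Or.inl h)]; simp
    rcases le_or_gt δ u with h' | h'
    · rw [gt_zero (Or.inr h')]; simp
    apply mul_le_mul_of_nonneg_right _ (gt_nonneg _ _)
    have h5 := h2 (x := u₀ + u) (show u₀ ≤ u₀ + u by linarith) (by
      rw [Real.dist_eq, show u₀ + u - u₀ = u by ring, abs_of_pos h]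
      linarith)
    rw [Real.dist_eq] at h5
    have := (abs_lt.1 h5).1
    linarith
  have h5 : ((ω * Fc θ F u₀).re - ε) * (∫ u : ℝ, gt δ u) ≤ (B + ε) * ∫ u : ℝ, gt δ u := h4.trans h3
  have h6 := le_of_mul_le_mul_right h5 hI
  linarith

end Pool.Agent.IT
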