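import Pool.Agent.Helper71.IT.Rec
import Pool.Agent.Helper71.MA.Dec
import Pool.Agent.Helper71.MA.Main

/-!
# Project IT (MP_a499ba_nt), block H: parts R1 and R2 for the systems of `Helper71/MA`
-/

set_option autoImplicit false

open Complex Filter Topology MeasureTheory Set
open Pool.Agent.Helper57.Zeta
open Pool.Agent.Helper18.ES (S)
open Pool.Agent.Helper71.MR
open Pool.Agent.Helper71.MA (Sys sm Fail)

namespace Pool.Agent.IT

variable {F : ℝ → ℝ} {A : ℝ} {c : ℂ → ℂ}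

/-- a system which is bounded on the right is bounded everywhere by the same constant -/
theorem sys_bdd71 (hS : Sys F A c) (hne : Pool.Agent.Helper71.MA.Ne c 1) {K T0 : ℝ}
    (hK : ∀ t, T0 ≤ t → |F t| ≤ K) :
    (∀ t, |F t| ≤ K) ∧ (∀ w, xi (1 / 2 + w) = 0 → w.re = 0) ∧
      (∀ w, xi (1 / 2 + w) = 0 → deriv xi (1 / 2 + w) ≠ 0) := by
  have hF : ∀ σ : ℝ, |σ| = 1 → Fail F σ K 1 := by
    intro σ hσ C
    refine ⟨max C T0, le_max_left _ _, fun t ht => ?_⟩
    have h := hK t ((le_max_right _ _).trans ht.1)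
    rw [one_mul]
    calc σ * F t ≤ |σ * F t| := le_abs_self _
      _ = |F t| := by rw [abs_mul, hσ, one_mul]
      _ ≤ K := h
  have hne' : Pool.Agent.Helper71.MA.Ne c 1 := hne
  obtain ⟨C1, h10, h1⟩ := Pool.Agent.Helper71.MA.big_of_fail hS (σ := 1) (by simp) (Or.inl rfl) (hF 1 (by simp))
  obtain ⟨C2, h20, h2⟩ := Pool.Agent.Helper71.MA.big_of_fail hS (σ := -1) (by simp) (Or.inl rfl) (hF (-1) (by simp))
  refine ⟨fun t => ?_, fun w hw => Pool.Agent.Helper71.MA.big_re hS (Or.inl rfl) hne' h1 hw,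
    Pool.Agent.Helper71.MA.big_simple hS (Or.inl rfl) hne' h10 h1⟩
  rw [abs_le]
  have e1 := Pool.Agent.Helper71.MA.le_of_big hS (Or.inl rfl) hne' h10 h1 t
  have e2 := Pool.Agent.Helper71.MA.le_of_big hS (Or.inl rfl) hne' h20 h2 t
  constructor <;> linarith

theorem sm_bddS71 {K : ℝ} (hK : ∀ t, |F t| ≤ K) (δ y : ℝ) : |sm F δ y| ≤ K * ∫ u : ℝ, gt δ u := by
  unfold sm
  rw [← Real.norm_eq_abs, ← integral_const_mul]
  apply norm_integral_le_of_norm_le ((gt_integrable δ).const_mul K)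
  filter_upwards with u
  rw [norm_mul, Real.norm_eq_abs, Real.norm_of_nonneg (gt_nonneg _ _)]
  exact mul_le_mul_of_nonneg_right (hK _) (gt_nonneg _ _)

/-- the smoothed function recurs along a sequence which tends to infinity -/
theorem rec_seqS71 (hS : Sys F A c) {K : ℝ} (hK0 : 0 ≤ K) (hK : ∀ t, |F t| ≤ K) (hre : ∀ w, xi (1 / 2 + w) = 0 → w.re = 0)
    (hsimple : ∀ w, xi (1 / 2 + w) = 0 → deriv xi (1 / 2 + w) ≠ 0) {δ : ℝ} (hδ : δ ≤ 1) :
    ∃ τ : ℕ → ℝ, Tendsto τ atTop atTop ∧ ∀ t, Tendsto (fun n => sm F δ (τ n + t)) atTop (𝓝 (sm F δ t)) := by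
  classical
  have hfin : ∀ n : ℕ, {w : ℂ | xi (1 / 2 + w) = 0 ∧ |w.im| ≤ n}.Finite := by
    intro n
    have h := (zsym_finite (n : ℝ)).preimage (f := fun w : ℂ => 1 / 2 + w) (by
      intro a _ b _ hab
      simpa using hab)
    refine h.subset ?_
    intro w hw
    refine ⟨hw.1, ?_⟩
    have : (1 / 2 + w).im = w.im := by simp
    rw [this]
    exact hw.2
  have key : ∀ n : ℕ, ∃ τ : ℝ, (n : ℝ) ≤ τ ∧
      (∀ w : ℂ, xi (1 / 2 + w) = 0 → |w.im| ≤ n → ‖cexp (w * τ) - 1‖ < 1 / ((n : ℝ) + 1)) := by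
    intro n
    obtain ⟨W, hW0, hWr⟩ := rel_dense (hfin n).toFinset (by
      intro w hw
      rw [Set.Finite.mem_toFinset] at hw
      exact hre w hw.1) (δ := 1 / ((n : ℝ) + 1)) (by positivity)
    obtain ⟨τ, hτ, hτ2⟩ := hWr n
    refine ⟨τ, hτ.1, fun w hw hwi => hτ2 w ?_⟩
    rw [Set.Finite.mem_toFinset]
    exact ⟨hw, hwi⟩
  choose τ hτn h3 using key
  have hret : ∀ w : ℂ, xi (1 / 2 + w) = 0 → Tendsto (fun n => cexp (w * τ n)) atTop (𝓝 1) := by
    intro w hw
    rw [tendsto_iff_norm_sub_tendsto_zero]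
    apply squeeze_zero' (g := fun n : ℕ => 1 / ((n : ℝ) + 1))
    · exact Eventually.of_forall fun n => norm_nonneg _
    · obtain ⟨N, hN⟩ := exists_nat_ge |w.im|
      filter_upwards [eventually_ge_atTop N] with n hn
      have : |w.im| ≤ (n : ℝ) := hN.trans (by exact_mod_cast hn)
      exact (h3 n w hw this).le
    · exact tendsto_one_div_add_atTop_nhds_zero_nat
  obtain ⟨C6, hC6, h6⟩ := Pool.Agent.Helper71.MA.wt_bd hS (σ := 1) (by simp)
  obtain ⟨C4, hC4def⟩ : ∃ C4 : ℝ, C4 = C6 * (K + 1) := ⟨_, rfl⟩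
  have hC4 : 0 ≤ C4 := by rw [hC4def]; positivity
  have hwt : ∀ y : ℝ, ∫ v : ℝ, |F (y + v)| * wt v ≤ C4 := by
    intro y
    rw [hC4def]
    refine h6 K y (Real.log (3 / 4 * (|y| + 2)) / 2) hK0 ?_ fun t _ => ?_
    · rw [mul_div_cancel₀ _ (by norm_num : (2:ℝ) ≠ 0), Real.exp_log (by positivity)]
    · rw [one_mul]
      exact (le_abs_self _).trans (hK t)
  set B : ℝ := Real.exp (Real.exp (2 * (1 + 1)) / 10) * C4 with hB
  have hB0 : 0 ≤ B := mul_nonneg (Real.exp_pos _).le hC4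
  have hbdn : ∀ n : ℕ, ∀ t : ℝ, |t| ≤ n → |sm F δ (τ n + t)| ≤ B := by
    intro n t ht
    have h := Pool.Agent.Helper71.MA.sm_bd_wt hS hδ (t := 0) (R := 1) (by simp) (τ n + t)
    rw [add_zero] at h
    exact h.trans (mul_le_mul_of_nonneg_left (hwt _) (Real.exp_pos _).le)
  have hlipn : ∀ n : ℕ, ∀ t t' : ℝ, |t| ≤ n → |t - t'| ≤ 1 →
      |sm F δ (τ n + t) - sm F δ (τ n + t')| ≤ B * |t - t'| := by
    intro n t t' ht htt
    have h := Pool.Agent.Helper71.MA.sm_lip_wt hS hδ (t := 0) (t' := t' - t) (R := 1) (by simp) (by rwa [abs_sub_comm]) (τ n + t)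
    rw [add_zero, show τ n + t + (t' - t) = τ n + t' by ring, zero_sub, neg_sub] at h
    refine h.trans ?_
    rw [mul_comm]
    apply mul_le_mul_of_nonneg_right _ (abs_nonneg _)
    exact mul_le_mul_of_nonneg_left (hwt _) (Real.exp_pos _).le
  obtain ⟨G, φ, hφ, hG⟩ := extract (fun n t => sm F δ (τ n + t)) B hbdn hlipn
  have hlarge : ∀ t : ℝ, ∀ᶠ n in atTop, |t| ≤ (φ n : ℝ) := by
    intro t
    obtain ⟨N, hN⟩ := exists_nat_ge |t|
    filter_upwards [eventually_ge_atTop N] with n hn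
    exact hN.trans (by exact_mod_cast hn.trans (hφ.id_le n))
  have hGb : ∀ t, |G t| ≤ B := by
    intro t
    apply le_of_tendsto (hG t).abs
    filter_upwards [hlarge t] with n hn
    exact hbdn _ t hn
  have hGl : ∀ t t' : ℝ, |t - t'| ≤ 1 → |G t - G t'| ≤ B * |t - t'| := by
    intro t t' htt
    apply le_of_tendsto ((hG t).sub (hG t')).abs
    filter_upwards [hlarge t] with n hn
    exact hlipn _ t t' hn htt
  have hGc : Continuous G := by
    rw [continuous_iff_continuousAt]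
    intro t₀
    rw [Metric.continuousAt_iff]
    intro ε hε
    refine ⟨min 1 (ε / (B + 1)), by positivity, ?_⟩
    intro x hx
    rw [Real.dist_eq] at hx ⊢
    have h1 := hGl x t₀ ((hx.trans_le (min_le_left _ _)).le)
    refine h1.trans_lt ?_
    have h2 := hx.trans_le (min_le_right 1 (ε / (B + 1)))
    rw [lt_div_iff₀ (by positivity)] at h2
    nlinarith [abs_nonneg (x - t₀)]
  have hGgr : Gr G B 0 := ⟨hGc, fun t => by simpa using hGb t⟩
  have hw2 : ∀ n : ℕ, ∀ t : ℝ, |t| ≤ n → ∫ v : ℝ, |F (τ n + t + v)| * wt v ≤ C4 :=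
    fun n t _ => hwt _
  have hGkr : ∀ t, ∫ s : ℝ, (G (t + s) : ℂ) * (kr s : ℂ) = 0 := by
    intro t
    obtain ⟨Ck, hCk⟩ := dk_kr
    have h := Pool.Agent.Helper71.MA.trans_lim hS hδ hC4 hw2 hφ hG hCk t
    have h2 : (fun n => ∫ s : ℝ, (sm F δ (τ (φ n) + (t + s)) : ℂ) * (kr s : ℂ)) = fun _ => (0:ℂ) := by
      ext n
      rw [← Pool.Agent.Helper71.MA.sm_kr hS hδ (τ (φ n) + t)]
      apply integral_congr_ae
      filter_upwards with s
      rw [show τ (φ n) + t + s = τ (φ n) + (t + s) by ring]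
    rw [h2] at h
    exact tendsto_nhds_unique h tendsto_const_nhds |>.symm ▸ rfl
  have hGAw : ∀ w, xi (1 / 2 + w) = 0 → ∫ s : ℝ, (G s : ℂ) * Aw kr w s =
        c w * ∫ u : ℝ, (gt δ u : ℂ) * cexp (w * u) := by
    intro w hw
    obtain ⟨C, hC⟩ := dk_Aw hw
    have h := Pool.Agent.Helper71.MA.trans_lim hS hδ hC4 hw2 hφ hG hC 0
    simp only [zero_add] at h
    have h2 : (fun n => ∫ s : ℝ, (sm F δ (τ (φ n) + s) : ℂ) * Aw kr w s) =
        fun n => cexp (w * τ (φ n)) * (c w * ∫ u : ℝ, (gt δ u : ℂ) * cexp (w * u)) := by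
      ext n
      rw [Pool.Agent.Helper71.MA.sm_Aw hS hδ hw]
    rw [h2] at h
    have h3 := ((hret w hw).comp hφ.tendsto_atTop).mul_const (c w * ∫ u : ℝ, (gt δ u : ℂ) * cexp (w * u))
    rw [one_mul] at h3
    exact tendsto_nhds_unique h h3
  -- the limit is `sm F δ`
  obtain ⟨A', hA⟩ := Pool.Agent.Helper71.MA.sm_gr hS hδ
  obtain ⟨Ck, hCk⟩ := dk_kr
  have hDgr : Gr (fun t => G t - sm F δ t) (B + A') (3 / 4) := by
    refine ⟨hGc.sub (Pool.Agent.Helper71.MA.sm_cont hS hδ), fun t => ?_⟩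
    have h1 := abs_sub (G t) (sm F δ t)
    have h2 := hGb t
    have h3 := hA.bd t
    have h4 : 1 ≤ Real.exp (3 / 4 * |t|) := Real.one_le_exp (by positivity)
    rw [add_mul]
    nlinarith
  have hD0 : ∀ t, (fun t => G t - sm F δ t) t = 0 := by
    apply uniq hDgr (by norm_num) (by norm_num) ker_kr hsimple
    · intro t
      have e1 : ∫ s : ℝ, ((G s - sm F δ s : ℝ) : ℂ) * (kr (s - t) : ℂ) =
          ∫ s : ℝ, (((G (t + s) : ℂ) * (kr s : ℂ)) - (sm F δ (t + s) : ℂ) * (kr s : ℂ)) := by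
        rw [← integral_add_left_eq_self (fun s : ℝ => ((G s - sm F δ s : ℝ) : ℂ) * (kr (s - t) : ℂ)) t]
        apply integral_congr_ae
        filter_upwards with s
        rw [show t + s - t = s by ring]
        push_cast; ring
      rw [e1, integral_sub (dk_int hGgr (by norm_num) hCk t) (dk_int hA le_rfl hCk t), hGkr, Pool.Agent.Helper71.MA.sm_kr hS hδ, sub_zero]
    · intro w hw
      obtain ⟨C, hC⟩ := dk_Aw hw
      have i1 := dk_int hGgr (by norm_num) hC 0
      have i2 := dk_int hA le_rfl hC 0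
      have e3 := Pool.Agent.Helper71.MA.sm_Aw hS hδ hw 0
      simp only [zero_add] at i1 i2 e3
      rw [show w * ((0:ℝ) : ℂ) = 0 by simp, Complex.exp_zero, one_mul] at e3
      have e1 : ∫ s : ℝ, ((G s - sm F δ s : ℝ) : ℂ) * Aw kr w s =
          ∫ s : ℝ, (((G s : ℂ) * Aw kr w s) - (sm F δ s : ℂ) * Aw kr w s) := by
        apply integral_congr_ae
        filter_upwards with s
        push_cast; ring
      have e2 : ∫ s : ℝ, ((G s - sm F δ s : ℝ) : ℂ) * Aw kr w s = 0 := by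
        rw [e1, integral_sub i1 i2, hGAw w hw, e3, sub_self]
      have e4 := split_eq hDgr le_rfl hw
      rw [e2] at e4
      exact (sub_eq_zero.mp e4.symm)
  refine ⟨τ ∘ φ, ?_, fun t => ?_⟩
  · refine tendsto_atTop_mono (fun n => ?_) tendsto_natCast_atTop_atTop
    exact (by exact_mod_cast hφ.id_le n : (n : ℝ) ≤ (φ n : ℝ)).trans (hτn (φ n))
  · have h := hG t
    have h2 := hD0 t
    simp only at h2
    rw [show G t = sm F δ t by linarith] at h
    exact h

theorem Fc_smoothS71 (hF : Measurable F) {K : ℝ} (hK : ∀ t, |F t| ≤ K) (θ δ y : ℝ) :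
    Integrable (fun u : ℝ => Fc θ F (y + u) * (gt δ u : ℂ)) ∧
      ∫ u : ℝ, Fc θ F (y + u) * (gt δ u : ℂ) = Fc θ (sm F δ) y := by
  have hprod : Integrable (Function.uncurry fun u v : ℝ =>
      (F (y + u - v) : ℂ) * cexp ((I * θ - 1 / 2) * v) * (gt δ u : ℂ))
      (volume.prod (volume.restrict (Ioi (0:ℝ)))) := by
    have h1 : Integrable (fun p : ℝ × ℝ => (K * gt δ p.1) * Real.exp (-(1 / 2) * p.2))
        (volume.prod (volume.restrict (Ioi (0:ℝ)))) :=
      ((gt_integrable δ).const_mul K).mul_prod exp_half_int71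
    refine Integrable.mono' h1 ?_ ?_
    · apply Measurable.aestronglyMeasurable
      have := hF
      have := (gt_cont δ).measurable
      simp only [Function.uncurry_def]
      fun_prop
    · filter_upwards with p
      simp only [Function.uncurry_def]
      rw [norm_mul, norm_mul, norm_kap71, Complex.norm_real, Complex.norm_real, Real.norm_eq_abs,
        Real.norm_of_nonneg (gt_nonneg _ _)]
      have h2 := hK (y + p.1 - p.2)
      have h3 := gt_nonneg δ p.1
      have h4 := (Real.exp_pos (-(1 / 2) * p.2)).le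
      calc |F (y + p.1 - p.2)| * Real.exp (-(1 / 2) * p.2) * gt δ p.1
          ≤ K * Real.exp (-(1 / 2) * p.2) * gt δ p.1 := by gcongr
        _ = _ := by ring
  have hJ : ∀ u : ℝ, Jc θ F (y + u) * (gt δ u : ℂ) =
      ∫ v in Ioi (0:ℝ), (F (y + u - v) : ℂ) * cexp ((I * θ - 1 / 2) * v) * (gt δ u : ℂ) := by
    intro u
    unfold Jc
    rw [← integral_mul_const]
  have i1 : Integrable (fun u : ℝ => (F (y + u) : ℂ) * (gt δ u : ℂ)) := by
    refine Integrable.mono' ((gt_integrable δ).const_mul K) ?_ ?_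
    · apply Measurable.aestronglyMeasurable
      have := hF
      have := (gt_cont δ).measurable
      fun_prop
    · filter_upwards with u
      rw [norm_mul, Complex.norm_real, Complex.norm_real, Real.norm_eq_abs, Real.norm_of_nonneg (gt_nonneg _ _)]
      exact mul_le_mul_of_nonneg_right (hK _) (gt_nonneg _ _)
  have i2 : Integrable (fun u : ℝ => Jc θ F (y + u) * (gt δ u : ℂ)) := by
    simp_rw [hJ]
    exact hprod.integral_prod_left
  have e1 : ∀ u : ℝ, Fc θ F (y + u) * (gt δ u : ℂ) =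
      (F (y + u) : ℂ) * (gt δ u : ℂ) + I * θ * (Jc θ F (y + u) * (gt δ u : ℂ)) := by
    intro u
    unfold Fc
    ring
  have e2 : ∀ z : ℝ, ∫ u : ℝ, (F (z + u) : ℂ) * (gt δ u : ℂ) = (sm F δ z : ℂ) := by
    intro z
    unfold sm
    rw [← integral_complex_ofReal]
    apply integral_congr_ae
    filter_upwards with u
    push_cast
    rfl
  simp_rw [e1]
  refine ⟨i1.add (i2.const_mul _), ?_⟩
  rw [integral_add i1 (i2.const_mul _), integral_const_mul, e2]
  unfold Fc
  congr 2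
  simp_rw [hJ]
  rw [integral_integral_swap hprod]
  unfold Jc
  apply integral_congr_ae
  filter_upwards with v
  rw [← e2, ← integral_mul_const]
  apply integral_congr_ae
  filter_upwards with u
  rw [show y + u - v = y - v + u by ring]
  ring

theorem Fc_rightS71 (hS : Sys F A c) {K : ℝ} (hms : ∀ t, |F t| ≤ K) (θ u₀ : ℝ) :
    Tendsto (fun u => Fc θ F u) (𝓝[≥] u₀) (𝓝 (Fc θ F u₀)) := by
  have h1 : Tendsto (fun u : ℝ => Jc θ F u) (𝓝[≥] u₀) (𝓝 (Jc θ F u₀)) := by
    apply Jc_tendsto71 (f := fun _ : ℝ => F) (u := fun u => u) (fun _ => hS.meas) (fun _ => hms)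
    intro v _
    refine (hS.right (u₀ - v)).comp ?_
    apply tendsto_nhdsWithin_of_tendsto_nhds_of_eventually_within
    · exact ((continuous_id.sub continuous_const).tendsto u₀).mono_left nhdsWithin_le_nhds
    · filter_upwards [self_mem_nhdsWithin] with u hu
      exact sub_le_sub_right (show u₀ ≤ u from hu) v
  have h2 : Tendsto (fun u : ℝ => (F u : ℂ)) (𝓝[≥] u₀) (𝓝 (F u₀ : ℂ)) :=
    (Complex.continuous_ofReal.tendsto _).comp (hS.right u₀)
  exact h2.add (h1.const_mul (I * θ))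

/-- R1: the bound for the twisted sums near infinity bounds the convolution everywhere -/
theorem conv_sys71 (hS : Sys F A c) (hne : Pool.Agent.Helper71.MA.Ne c 1) {K T0 : ℝ}
    (hK : ∀ t, T0 ≤ t → |F t| ≤ K) {θ B : ℝ}
    (hB : ∀ ε : ℝ, 0 < ε → ∃ U : ℝ, ∀ u, U ≤ u → ‖Fc θ F u‖ ≤ B + ε) (u₀ : ℝ) : ‖Fc θ F u₀‖ ≤ B := by
  obtain ⟨hms, hre, hsimple⟩ := sys_bdd71 hS hne hK
  have hK0 : 0 ≤ K := (abs_nonneg _).trans (hms 0)
  by_contra hcon
  push Not at hcon
  obtain ⟨ε, hεdef⟩ : ∃ ε : ℝ, ε = (‖Fc θ F u₀‖ - B) / 3 := ⟨_, rfl⟩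
  have hε : 0 < ε := by rw [hεdef]; linarith
  obtain ⟨U, hU⟩ := hB ε hε
  have h1 := Fc_rightS71 hS hms θ u₀
  rw [Metric.tendsto_nhdsWithin_nhds] at h1
  obtain ⟨η, hη, h2⟩ := h1 ε hε
  set δ : ℝ := min 1 (η / 2) with hδ
  have hδ0 : 0 < δ := by positivity
  have hδ1 : δ ≤ 1 := min_le_left _ _
  have hδη : δ < η := by
    have := min_le_right 1 (η / 2)
    rw [hδ]; linarith
  have hI := gt_int_pos hδ0
  obtain ⟨τ, hτ, hτt⟩ := rec_seqS71 hS hK0 hms hre hsimple hδ1
  have hgi : Integrable (fun u : ℝ => (gt δ u : ℂ)) := (gt_integrable δ).ofReal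
  -- the bound for the smoothed function
  have h3 : ‖Fc θ (sm F δ) u₀‖ ≤ (B + ε) * ∫ u : ℝ, gt δ u := by
    have h4 : Tendsto (fun n => Fc θ (sm F δ) (τ n + u₀)) atTop (𝓝 (Fc θ (sm F δ) u₀)) := by
      have h5 : Tendsto (fun n => Jc θ (sm F δ) (τ n + u₀)) atTop (𝓝 (Jc θ (sm F δ) u₀)) := by
        apply Jc_tendsto71 (f := fun _ : ℕ => sm F δ) (u := fun n => τ n + u₀) (fun _ => (Pool.Agent.Helper71.MA.sm_cont hS hδ1).measurable)
          (fun _ => sm_bddS71 hms δ)
        intro v _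
        refine (hτt (u₀ - v)).congr fun n => ?_
        rw [show τ n + (u₀ - v) = τ n + u₀ - v by ring]
      have h6 : Tendsto (fun n => (sm F δ (τ n + u₀) : ℂ)) atTop (𝓝 (sm F δ u₀ : ℂ)) :=
        (Complex.continuous_ofReal.tendsto _).comp (hτt u₀)
      exact h6.add (h5.const_mul (I * θ))
    apply le_of_tendsto h4.norm
    filter_upwards [hτ.eventually (eventually_ge_atTop (U - u₀))] with n hn
    rw [← (Fc_smoothS71 hS.meas hms θ δ (τ n + u₀)).2, ← integral_const_mul]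
    apply norm_integral_le_of_norm_le ((gt_integrable δ).const_mul _)
    filter_upwards with u
    rw [norm_mul, Complex.norm_real, Real.norm_of_nonneg (gt_nonneg _ _)]
    rcases le_or_gt u 0 with h | h
    · rw [gt_zero (Or.inl h)]; simp
    · exact mul_le_mul_of_nonneg_right (hU _ (by linarith)) (gt_nonneg _ _)
  -- the smoothed function is close to the value
  have h4 : ‖Fc θ (sm F δ) u₀ - Fc θ F u₀ * ∫ u : ℝ, (gt δ u : ℂ)‖ ≤ ε * ∫ u : ℝ, gt δ u := by
    obtain ⟨i1, e1⟩ := Fc_smoothS71 hS.meas hms θ δ u₀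
    rw [← e1, ← integral_const_mul, ← integral_sub i1 (hgi.const_mul _), ← integral_const_mul]
    apply norm_integral_le_of_norm_le ((gt_integrable δ).const_mul _)
    filter_upwards with u
    rw [← sub_mul, norm_mul, Complex.norm_real, Real.norm_of_nonneg (gt_nonneg _ _)]
    rcases le_or_gt u 0 with h | h
    · rw [gt_zero (Or.inl h)]; simp
    rcases le_or_gt δ u with h' | h'
    · rw [gt_zero (Or.inr h')]; simp
    apply mul_le_mul_of_nonneg_right _ (gt_nonneg _ _)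
    have h5 := h2 (x := u₀ + u) (show u₀ ≤ u₀ + u by linarith) (by
      rw [Real.dist_eq, show u₀ + u - u₀ = u by ring, abs_of_pos h]
      linarith)
    rw [dist_eq_norm] at h5
    exact h5.le
  have h5 : ‖Fc θ F u₀ * ∫ u : ℝ, (gt δ u : ℂ)‖ = ‖Fc θ F u₀‖ * ∫ u : ℝ, gt δ u := by
    rw [integral_complex_ofReal, norm_mul, Complex.norm_real, Real.norm_of_nonneg hI.le]
  have h6 : ‖Fc θ F u₀‖ * ∫ u : ℝ, gt δ u ≤ (B + ε) * (∫ u : ℝ, gt δ u) + ε * ∫ u : ℝ, gt δ u := by
    rw [← h5]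
    have h7 := norm_sub_norm_le (Fc θ F u₀ * ∫ u : ℝ, (gt δ u : ℂ)) (Fc θ (sm F δ) u₀)
    rw [norm_sub_rev] at h7
    linarith
  have h8 : ‖Fc θ F u₀‖ ≤ B + 2 * ε := by
    have h9 : ‖Fc θ F u₀‖ * ∫ u : ℝ, gt δ u ≤ (B + 2 * ε) * ∫ u : ℝ, gt δ u := by linarith
    exact le_of_mul_le_mul_right h9 hI
  linarith

/-- the twisted sums of any real coefficients (partial summation) -/
theorem abel_gen71 (a : ℕ → ℝ) (θ u : ℝ) : cexp (I * θ * u) * ((Real.exp (-(u / 2)) : ℝ) : ℂ) *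
    Sw (fun n => (a n : ℂ)) θ (Real.exp u) = ((fun t => S a (Real.exp t) * Real.exp (-t / 2)) u : ℂ) +
      I * θ * Jc θ (fun t => S a (Real.exp t) * Real.exp (-t / 2)) u := by
  classical
  set N := ⌊Real.exp u⌋₊ with hN
  have hmem : ∀ n ∈ Finset.Icc 1 N, (0:ℝ) < n ∧ 0 ≤ u - Real.log n := by
    intro n hn
    rw [Finset.mem_Icc] at hn
    have hn0 : (0:ℝ) < n := by exact_mod_cast hn.1
    have h3 : (n:ℝ) ≤ Real.exp u := (Nat.le_floor_iff (Real.exp_pos _).le).1 hn.2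
    have h4 := (Real.log_le_iff_le_exp hn0).2 h3
    exact ⟨hn0, by linarith⟩
  have hpt : ∀ v ∈ Ioi (0:ℝ), ((S a (Real.exp (u - v)) * Real.exp (-(u - v) / 2) : ℝ) : ℂ) * cexp ((I * θ - 1 / 2) * v) =
      ∑ n ∈ Finset.Icc 1 N, (Ioc (0:ℝ) (u - Real.log n)).indicator
        (fun v : ℝ => ((a n * Real.exp (-(u / 2)) : ℝ) : ℂ) * cexp (I * θ * v)) v := by
    intro v hv
    have hv0 : 0 < v := hv
    have h1 : S a (Real.exp (u - v)) = ∑ n ∈ Finset.Icc 1 N, if v ≤ u - Real.log n then a n else 0 := by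
      unfold S
      rw [← Finset.sum_filter]
      apply Finset.sum_congr _ (fun _ _ => rfl)
      ext n
      rw [Finset.mem_filter, Finset.mem_Icc, Finset.mem_Icc]
      constructor
      · rintro ⟨h1, h2⟩
        have hn0 : (0:ℝ) < n := by exact_mod_cast h1
        have h3 : (n:ℝ) ≤ Real.exp (u - v) := (Nat.le_floor_iff (Real.exp_pos _).le).1 h2
        have h4 : Real.log n ≤ u - v := (Real.log_le_iff_le_exp hn0).2 h3
        exact ⟨⟨h1, (Nat.le_floor_iff (Real.exp_pos _).le).2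
          (h3.trans (Real.exp_le_exp.2 (by linarith)))⟩, by linarith⟩
      · rintro ⟨⟨h1, _⟩, h2⟩
        have hn0 : (0:ℝ) < n := by exact_mod_cast h1
        exact ⟨h1, (Nat.le_floor_iff (Real.exp_pos _).le).2 ((Real.log_le_iff_le_exp hn0).1 (by linarith))⟩
    have h2 : ((Real.exp (-(u - v) / 2) : ℝ) : ℂ) * cexp ((I * θ - 1 / 2) * v) =
        ((Real.exp (-(u / 2)) : ℝ) : ℂ) * cexp (I * θ * v) := by
      rw [Complex.ofReal_exp, Complex.ofReal_exp, ← Complex.exp_add, ← Complex.exp_add]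
      congr 1
      push_cast
      ring
    rw [h1, Complex.ofReal_mul, mul_assoc, h2, Complex.ofReal_sum, Finset.sum_mul]
    apply Finset.sum_congr rfl
    intro n _
    by_cases h : v ≤ u - Real.log n
    · rw [if_pos h, Set.indicator_of_mem (show v ∈ Ioc (0:ℝ) (u - Real.log n) from ⟨hv0, h⟩)]
      push_cast
      ring
    · rw [if_neg h, Set.indicator_of_notMem (fun h' : v ∈ Ioc (0:ℝ) (u - Real.log n) => h h'.2)]
      simp
  have hint : ∀ n ∈ Finset.Icc 1 N, Integrable ((Ioc (0:ℝ) (u - Real.log n)).indicator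
        (fun v : ℝ => ((a n * Real.exp (-(u / 2)) : ℝ) : ℂ) * cexp (I * θ * v))) (volume.restrict (Ioi 0)) := by
    intro n _
    rw [integrable_indicator_iff measurableSet_Ioc]
    have hc : Continuous (fun v : ℝ => ((a n * Real.exp (-(u / 2)) : ℝ) : ℂ) * cexp (I * θ * v)) := by fun_prop
    exact hc.integrableOn_Ioc.mono_measure Measure.restrict_le_self
  have hone : ∀ L : ℝ, 0 ≤ L → I * θ * ∫ v in (0:ℝ)..L, cexp (I * θ * v) = cexp (I * θ * L) - 1 := by
    intro L _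
    by_cases hθ : θ = 0
    · rw [hθ]; simp
    · have hc : I * (θ : ℂ) ≠ 0 := mul_ne_zero I_ne_zero (by exact_mod_cast hθ)
      rw [integral_exp_mul_complex hc, Complex.ofReal_zero, mul_zero, Complex.exp_zero, mul_div_cancel₀ _ hc]
  have hJ : I * θ * Jc θ (fun t => S a (Real.exp t) * Real.exp (-t / 2)) u = ∑ n ∈ Finset.Icc 1 N,
      ((a n * Real.exp (-(u / 2)) : ℝ) : ℂ) * (cexp (I * θ * (u - Real.log n)) - 1) := by
    unfold Jc
    rw [setIntegral_congr_fun measurableSet_Ioi hpt, integral_finset_sum _ hint, Finset.mul_sum]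
    apply Finset.sum_congr rfl
    intro n hn
    rw [setIntegral_indicator measurableSet_Ioc, Set.inter_eq_right.2 Ioc_subset_Ioi_self,
      ← intervalIntegral.integral_of_le (hmem n hn).2, intervalIntegral.integral_const_mul,
      mul_left_comm, hone _ (hmem n hn).2]
    push_cast
    rfl
  rw [hJ]
  unfold S Sw
  rw [← hN, Complex.ofReal_mul, Complex.ofReal_sum, Finset.sum_mul, ← Finset.sum_add_distrib, Finset.mul_sum]
  apply Finset.sum_congr rfl
  intro n hn
  have hn0 := (hmem n hn).1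
  have h1 : nit θ n = cexp (-(I * θ * Real.log n)) := by
    unfold nit
    rw [Complex.cpow_def_of_ne_zero (by exact_mod_cast hn0.ne'), ← Complex.natCast_log]
    congr 1
    ring
  rw [h1, show I * (θ : ℂ) * (u - Real.log n) = I * θ * u + -(I * θ * Real.log n) by ring, Complex.exp_add,
    show -u / 2 = -(u / 2) by ring]
  push_cast
  ring

end Pool.Agent.IT
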